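import Pool.Agent.K3h1.TF.Stm2

/-!
# TF brick NP: the norm of the cofactor at `p`
-/

set_option autoImplicit false

namespace Pool.Agent.K3h27.TF

open Pool.Agent.K3h1.TF

theorem np_int (p : ℕ) [hp : Fact p.Prime] (hp5 : 5 ≤ p) (X Y : ℤ_[p]) (hX : ‖X‖ = 1)
    (hXY : ‖X + Y‖ < 1) :
    ‖∑ i ∈ Finset.range p, X ^ i * (-Y) ^ (p - 1 - i)‖ = (p : ℝ)⁻¹ := by
  have hodd : Odd p := hp.out.odd_of_ne_two (by omega)
  obtain ⟨b, hb⟩ := (PadicInt.norm_lt_one_iff_dvd (X + Y)).1 hXY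
  have hX' : X = -Y + p * b := by rw [← hb]; ring
  have hY : ‖-Y‖ = 1 := by
    have e : -Y = X + -(X + Y) := by ring
    rw [e, PadicInt.norm_add_eq_max_of_ne, hX, norm_neg, max_eq_left hXY.le]
    rw [hX, norm_neg]
    exact hXY.ne'
  obtain ⟨c, hc⟩ := odd_sq_dvd_geom_sum₂_sub (-Y) b hodd
  rw [← hX'] at hc
  have hc' : ∑ i ∈ Finset.range p, X ^ i * (-Y) ^ (p - 1 - i) =
      (p : ℤ_[p]) * (-Y) ^ (p - 1) + (p : ℤ_[p]) ^ 2 * c := by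
    rw [← hc]; ring
  have hp0 : (0 : ℝ) < p := by exact_mod_cast hp.out.pos
  have hp1 : (1 : ℝ) < p := by exact_mod_cast hp.out.one_lt
  have n1 : ‖(p : ℤ_[p]) * (-Y) ^ (p - 1)‖ = (p : ℝ)⁻¹ := by
    rw [norm_mul, norm_pow, hY, one_pow, mul_one, PadicInt.norm_p]
  have n2 : ‖(p : ℤ_[p]) ^ 2 * c‖ < (p : ℝ)⁻¹ := by
    rw [norm_mul, norm_pow, PadicInt.norm_p]
    have h1 : ‖c‖ ≤ 1 := PadicInt.norm_le_one c
    have h2 : (p : ℝ)⁻¹ < 1 := inv_lt_one_of_one_lt₀ hp1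
    have h3 : (0 : ℝ) < (p : ℝ)⁻¹ := by positivity
    calc (p : ℝ)⁻¹ ^ 2 * ‖c‖ ≤ (p : ℝ)⁻¹ ^ 2 * 1 := by gcongr
      _ < (p : ℝ)⁻¹ := by nlinarith
  rw [hc', PadicInt.norm_add_eq_max_of_ne (by rw [n1]; exact n2.ne'), n1, max_eq_left n2.le]

theorem t_NP : S_NP := by
  intro p hp hp5 x y hx hy hxy
  obtain ⟨X, rfl⟩ : ∃ X : ℤ_[p], (X : ℚ_[p]) = x := ⟨⟨x, hx.le⟩, rfl⟩
  obtain ⟨Y, rfl⟩ : ∃ Y : ℤ_[p], (Y : ℚ_[p]) = y := ⟨⟨y, hy⟩, rfl⟩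
  rw [← PadicInt.coe_add, PadicInt.padic_norm_e_of_padicInt] at hxy
  rw [PadicInt.padic_norm_e_of_padicInt] at hx
  have h := np_int p hp5 X Y hx hxy
  rw [← PadicInt.padic_norm_e_of_padicInt] at h
  rw [← h]
  congr 1
  rw [PadicInt.coe_sum]
  exact Finset.sum_congr rfl fun i _ => by push_cast; rfl

end Pool.Agent.K3h27.TF
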